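import Pool.Agent.N850.Imb.Main
import Pool.Agent.R64.EGdeg

/-!
# Edge imbalances: parity, and the Erdős–Gallai theorem for functions on a finite type
-/

set_option autoImplicit false

namespace Pool.Agent.N850.Imb

open Finset

/-- the theorem of Erdős and Gallai for a function on a finite type -/
theorem egType {E : Type*} [Fintype E] [DecidableEq E] (f : E → ℕ) (hev : Even (∑ e, f e))
    (hEG : ∀ S : Finset E, ∑ e ∈ S, f e ≤ S.card * (S.card - 1) + ∑ e ∈ Sᶜ, min (f e) S.card) :
    ∃ H : SimpleGraph E, ∀ e, (H.neighborSet e).ncard = f e := by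
  classical
  set n := Fintype.card E with hn
  let ε : Fin n ≃ E := (Fintype.equivFin E).symm
  let g : Fin n → ℕᵒᵈ := fun i => OrderDual.toDual (f (ε i))
  let σ : Fin n ≃ E := (Tuple.sort g).trans ε
  have hmono : Monotone (g ∘ Tuple.sort g) := Tuple.monotone_sort g
  let b : Fin n → ℕ := fun i => f (σ i)
  have hb : Antitone b := by
    intro i j hij
    have := hmono hij
    exact this
  have hsumb : ∑ i, b i = ∑ e, f e := Equiv.sum_comp σ f
  obtain ⟨G, hG⟩ := Pool.Agent.R64.EGdeg.erdosGallai b hb (by rw [hsumb]; exact hev) (by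
    intro r
    have h := hEG ((Finset.Iic r).map σ.toEmbedding)
    have hc : ((Finset.Iic r).map σ.toEmbedding).card = r.1 + 1 := by
      rw [Finset.card_map, Fin.card_Iic]
    have hcompl : ((Finset.Iic r).map σ.toEmbedding)ᶜ = (Finset.Ioi r).map σ.toEmbedding := by
      ext e
      simp only [mem_compl, mem_map_equiv, mem_Iic, mem_Ioi, not_le]
    rw [hc, hcompl, Finset.sum_map, Finset.sum_map] at h
    simpa using h)
  refine ⟨G.comap σ.symm, fun e => ?_⟩
  have h1 : (G.comap σ.symm).neighborSet e = σ '' (G.neighborSet (σ.symm e)) := by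
    ext x
    simp only [SimpleGraph.mem_neighborSet, SimpleGraph.comap_adj, Set.mem_image]
    constructor
    · intro h; exact ⟨σ.symm x, h, by simp⟩
    · rintro ⟨y, hy, rfl⟩; simpa using hy
  rw [h1, Set.ncard_image_of_injective _ σ.injective]
  have h2 := hG (σ.symm e)
  have h3 : b (σ.symm e) = f e := by simp [b]
  rw [← h3, ← h2, Pool.Agent.R64.EGdeg.dg, ← Set.ncard_coe_finset]
  congr 1
  ext x
  simp [Pool.Agent.R64.EGdeg.mem_nbr]

variable {V : Type*} [Fintype V] [DecidableEq V] (G : SimpleGraph V) [DecidableRel G.Adj]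

/-- the sum of the imbalances is even -/
theorem even_sum : Even (∑ e ∈ G.edgeFinset, imb G e) := by
  have h1 : ∀ e ∈ G.edgeFinset, (imb G e : ZMod 2) =
      ∑ x ∈ univ.filter (fun x => x ∈ e), (G.degree x : ZMod 2) := by
    intro e he
    induction e using Sym2.ind with
    | _ x y =>
      rw [SimpleGraph.mem_edgeFinset, SimpleGraph.mem_edgeSet] at he
      have hxy : x ≠ y := he.ne
      have h2 : (univ.filter (fun z => z ∈ s(x, y))) = {x, y} := by
        ext z; simp
      rw [h2, Finset.sum_pair hxy, imb_mk, ← Nat.cast_add, ZMod.natCast_eq_natCast_iff']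
      omega
  have h2 : ((∑ e ∈ G.edgeFinset, imb G e : ℕ) : ZMod 2) = 0 := by
    rw [Nat.cast_sum, Finset.sum_congr rfl h1]
    simp_rw [Finset.sum_filter]
    rw [Finset.sum_comm]
    simp_rw [← Finset.sum_filter, Finset.sum_const]
    have h3 : ∀ x, (G.edgeFinset.filter (fun e => x ∈ e)).card = G.degree x := by
      intro x
      rw [← G.card_incidenceFinset_eq_degree, G.incidenceFinset_eq_filter]
    simp_rw [h3, nsmul_eq_mul]
    have h4 : ∀ a : ZMod 2, a * a = a := by decide
    simp_rw [h4]
    rw [← Nat.cast_sum, G.sum_degrees_eq_twice_card_edges]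
    push_cast
    have : (2 : ZMod 2) = 0 := by decide
    rw [this, zero_mul]
  rwa [ZMod.natCast_eq_zero_iff_even] at h2

theorem final (h : ∀ x y, G.Adj x y → G.degree x ≠ G.degree y) :
    ∃ H : SimpleGraph G.edgeSet, ∀ e : G.edgeSet, (H.neighborSet e).ncard = imb G e.1 := by
  classical
  have hsub : ∀ T : Finset G.edgeSet, ∀ φ : Sym2 V → ℕ,
      ∑ e ∈ T, φ e.1 = ∑ e ∈ T.map (Function.Embedding.subtype _), φ e := by
    intro T φ
    rw [Finset.sum_map]
    rfl
  apply egType
  · rw [hsub univ (imb G)]
    have : (univ : Finset G.edgeSet).map (Function.Embedding.subtype _) = G.edgeFinset := by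
      ext e
      simp
    rw [this]
    exact even_sum G
  · intro S
    set S' := S.map (Function.Embedding.subtype _) with hS'
    have hcard : S'.card = S.card := Finset.card_map _
    have h1 := main G h S' (by
      intro e he
      rw [hS', mem_map] at he
      obtain ⟨a, _, rfl⟩ := he
      rw [SimpleGraph.mem_edgeFinset]
      exact a.2)
    rw [hcard] at h1
    have h2 : (Sᶜ).map (Function.Embedding.subtype _) = G.edgeFinset \ S' := by
      ext e
      simp only [mem_map, mem_compl, Function.Embedding.coe_subtype, mem_sdiff, hS',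
        SimpleGraph.mem_edgeFinset]
      constructor
      · rintro ⟨a, ha, rfl⟩
        refine ⟨a.2, ?_⟩
        rintro ⟨c, hc, hca⟩
        exact ha (by rwa [Subtype.ext hca] at hc)
      · rintro ⟨he, hne⟩
        exact ⟨⟨e, he⟩, fun hc => hne ⟨_, hc, rfl⟩, rfl⟩
    rw [hsub S (imb G), hsub Sᶜ (fun e => min (imb G e) S.card), h2]
    exact h1

end Pool.Agent.N850.Imb
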