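import Mathlib

/-!
# The Erdős–Gallai inequalities for edge imbalances
-/

set_option autoImplicit false

namespace Pool.Agent.N850.Imb

open Finset

variable {V : Type*} [Fintype V] [DecidableEq V] (G : SimpleGraph V) [DecidableRel G.Adj]

/-- `|deg x - deg y|` for the pair `e = xy` -/
def imb (e : Sym2 V) : ℕ :=
  Sym2.lift ⟨fun x y => (G.degree x - G.degree y) + (G.degree y - G.degree x),
    fun _ _ => add_comm _ _⟩ e

lemma imb_mk (x y : V) :
    imb G s(x, y) = (G.degree x - G.degree y) + (G.degree y - G.degree x) := rfl

/-- the edges that do not contain `u` and have an end in `T` -/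
def B (u : V) (T : Finset V) : Finset (Sym2 V) :=
  G.edgeFinset.filter (fun e => u ∉ e ∧ ∃ x ∈ T, x ∈ e)

lemma mk_inj {v a b : V} (h : s(v, a) = s(v, b)) : a = b := by
  rw [Sym2.eq_iff] at h
  rcases h with ⟨_, h⟩ | ⟨h1, h2⟩
  · exact h
  · rw [h2, h1]

lemma card_B (u : V) (T : Finset V) (hu : u ∉ T) :
    ∑ v ∈ T, G.degree v ≤ (B G u T).card + T.card + T.card.choose 2 := by
  induction T using Finset.induction_on with
  | empty => simp
  | insert v T hv ih =>
    rw [mem_insert, not_or] at hu
    obtain ⟨huv, huT⟩ := hu
    have ih := ih huT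
    have hch : (T.card + 1).choose 2 = T.card + T.card.choose 2 := by
      rw [Nat.choose_succ_succ' T.card 1, Nat.choose_one_right]
    rw [sum_insert hv, card_insert_of_notMem hv, hch]
    have key : (B G u T).card + G.degree v ≤ (B G u (insert v T)).card + 1 + T.card := by
      set N := ((G.neighborFinset v).erase u) \ T with hN
      have h1 : G.degree v ≤ N.card + 1 + T.card := by
        have h2 : (G.neighborFinset v).card ≤ ((G.neighborFinset v).erase u).card + 1 := by
          have := Finset.pred_card_le_card_erase (s := G.neighborFinset v) (a := u)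
          omega
        have h3 := Finset.le_card_sdiff T ((G.neighborFinset v).erase u)
        rw [G.card_neighborFinset_eq_degree] at h2
        rw [← hN] at h3
        omega
      have h2 : (B G u T).card + N.card ≤ (B G u (insert v T)).card := by
        have hinj : (N.image (fun w => s(v, w))).card = N.card := by
          apply Finset.card_image_of_injOn
          intro a _ b _ hab
          exact mk_inj hab
        rw [← hinj, ← Finset.card_union_of_disjoint]
        · apply Finset.card_le_card
          intro e he
          rw [mem_union] at he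
          rcases he with he | he
          · simp only [B, mem_filter] at he ⊢
            obtain ⟨h1, h2, x, hx, hxe⟩ := he
            exact ⟨h1, h2, x, mem_insert_of_mem hx, hxe⟩
          · rw [mem_image] at he
            obtain ⟨w, hw, rfl⟩ := he
            simp only [hN, mem_sdiff, mem_erase, SimpleGraph.mem_neighborFinset] at hw
            simp only [B, mem_filter, SimpleGraph.mem_edgeFinset, SimpleGraph.mem_edgeSet]
            refine ⟨hw.1.2, ?_, v, mem_insert_self _ _, by simp⟩
            simp only [Sym2.mem_iff, not_or]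
            exact ⟨huv, fun h => hw.1.1 h.symm⟩
        · rw [Finset.disjoint_left]
          intro e he he'
          rw [mem_image] at he'
          obtain ⟨w, hw, rfl⟩ := he'
          simp only [hN, mem_sdiff, mem_erase, SimpleGraph.mem_neighborFinset] at hw
          simp only [B, mem_filter, Sym2.mem_iff] at he
          obtain ⟨_, _, x, hx, hxe⟩ := he
          rcases hxe with rfl | rfl
          · exact hv hx
          · exact hw.2 hx
      omega
    omega

/-- the arithmetic at the end -/
lemma arith (k D s n q : ℤ) (hs1 : 1 ≤ s) (hsk : s ≤ k) (hD : k < D) (hn : n + s = D)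
    (hq0 : 0 ≤ q) (hqn : q ≤ n) :
    2 * (k * (D - k)) ≤ 2 * (k * (n - q)) + 2 * (q * D) - 2 * q - q * (q - 1) - 2 * (k - s) := by
  obtain ⟨t, rfl⟩ : ∃ t, s = k - t := ⟨k - s, by ring⟩
  obtain ⟨r, rfl⟩ : ∃ r, D = k + r := ⟨D - k, by ring⟩
  have hn' : n = r + t := by linarith
  subst hn'
  have hr : 1 ≤ r := by linarith
  have ht : 0 ≤ t := by linarith
  have htk : t ≤ k - 1 := by linarith
  suffices h : 0 ≤ 2 * ((k - 1) * t) + q * (2 * r - 1 - q) by nlinarith
  have h1 : t * t ≤ (k - 1) * t := mul_le_mul_of_nonneg_right htk ht
  rcases le_or_gt q (2 * r - 1) with h2 | h2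
  · have : 0 ≤ q * (2 * r - 1 - q) := mul_nonneg hq0 (by linarith)
    nlinarith
  · have h3 : q * (q + 1 - 2 * r) ≤ (r + t) * (t + 1 - r) := by
      apply mul_le_mul hqn (by linarith) (by linarith) (by linarith)
    have h4 : 0 ≤ (r + t) * r := by positivity
    have h5 : 1 ≤ t := by
      by_contra h
      have : t = 0 := by linarith [Int.lt_iff_add_one_le.1 (not_le.1 h)]
      linarith
    nlinarith

/-- **The Erdős–Gallai inequality for a set of edges.** -/
theorem main (h : ∀ x y, G.Adj x y → G.degree x ≠ G.degree y) (S : Finset (Sym2 V))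
    (hS : S ⊆ G.edgeFinset) :
    ∑ e ∈ S, imb G e ≤ S.card * (S.card - 1) + ∑ e ∈ G.edgeFinset \ S, min (imb G e) S.card := by
  rcases S.eq_empty_or_nonempty with rfl | hne
  · simp
  set k := S.card with hk
  have hk0 : 0 < k := Finset.card_pos.2 hne
  -- the vertex of maximal degree
  set W := (univ : Finset V).filter (fun x => ∃ e ∈ S, x ∈ e) with hW
  have hWne : W.Nonempty := by
    obtain ⟨e, he⟩ := hne
    induction e using Sym2.ind with
    | _ x y => exact ⟨x, by simp only [hW, mem_filter, mem_univ, true_and]; exact ⟨_, he, by simp⟩⟩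
  obtain ⟨u, huW, hmax⟩ := Finset.exists_max_image W (fun x => G.degree x) hWne
  set D := G.degree u with hD
  have himbD : ∀ e ∈ S, imb G e + 1 ≤ D := by
    intro e he
    induction e using Sym2.ind with
    | _ x y =>
      have hxy : G.Adj x y := by
        have := hS he
        rwa [SimpleGraph.mem_edgeFinset, SimpleGraph.mem_edgeSet] at this
      have hx := hmax x (by simp only [hW, mem_filter, mem_univ, true_and]; exact ⟨_, he, by simp⟩)
      have hy := hmax y (by simp only [hW, mem_filter, mem_univ, true_and]; exact ⟨_, he, by simp⟩)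
      have hx0 : 0 < G.degree x := by
        rw [SimpleGraph.degree_pos_iff_exists_adj]; exact ⟨y, hxy⟩
      have hy0 : 0 < G.degree y := by
        rw [SimpleGraph.degree_pos_iff_exists_adj]; exact ⟨x, hxy.symm⟩
      rw [imb_mk]
      omega
  have hsum : ∑ e ∈ S, imb G e ≤ k * (D - 1) := by
    rw [hk, ← smul_eq_mul]
    exact Finset.sum_le_card_nsmul _ _ _ (fun e he => by have := himbD e he; omega)
  rcases le_or_gt D k with hDk | hDk
  · calc ∑ e ∈ S, imb G e ≤ k * (D - 1) := hsum
      _ ≤ k * (k - 1) := Nat.mul_le_mul_left _ (by omega)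
      _ ≤ _ := Nat.le_add_right _ _
  -- neighbours of `u`
  set N1 := (G.neighborFinset u).filter (fun v => s(u, v) ∉ S) with hN1
  set P := (G.neighborFinset u).filter (fun v => s(u, v) ∈ S) with hP
  have hcard : N1.card + P.card = D := by
    rw [hN1, hP, hD, ← G.card_neighborFinset_eq_degree, add_comm]
    exact Finset.card_filter_add_card_filter_not (fun v => s(u, v) ∈ S)
  set N2 := N1.filter (fun v => imb G s(u, v) < k) with hN2
  have hN21 : N2 ⊆ N1 := filter_subset _ _
  set N3 := N1 \ N2 with hN3
  have hN3c : N3.card + N2.card = N1.card := Finset.card_sdiff_add_card_eq_card hN21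
  have huN : u ∉ N2 := by
    intro hu
    have := hN21 hu
    simp only [hN1, mem_filter, SimpleGraph.mem_neighborFinset] at this
    exact G.irrefl this.1
  have hP1 : 1 ≤ P.card := by
    rw [Nat.one_le_iff_ne_zero, ← Nat.pos_iff_ne_zero, Finset.card_pos]
    simp only [hW, mem_filter, mem_univ, true_and] at huW
    obtain ⟨e, he, hue⟩ := huW
    obtain ⟨v, rfl⟩ := Sym2.mem_iff_exists.1 hue
    refine ⟨v, ?_⟩
    simp only [hP, mem_filter, SimpleGraph.mem_neighborFinset]
    refine ⟨?_, he⟩
    have := hS he
    rwa [SimpleGraph.mem_edgeFinset, SimpleGraph.mem_edgeSet] at this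
  -- edges of `S` not at `u`
  have hSu : (S.filter (fun e => u ∉ e)).card + P.card ≤ k := by
    have h1 : (P.image (fun v => s(u, v))).card = P.card := by
      apply Finset.card_image_of_injOn
      intro a _ b _ hab
      exact mk_inj hab
    rw [← h1, ← Finset.card_union_of_disjoint]
    · apply Finset.card_le_card
      intro e he
      rw [mem_union, mem_filter, mem_image] at he
      rcases he with he | ⟨v, hv, rfl⟩
      · exact he.1
      · exact (mem_filter.1 hv).2
    · rw [Finset.disjoint_left]
      intro e he he'
      rw [mem_image] at he'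
      obtain ⟨v, _, rfl⟩ := he'
      rw [mem_filter] at he
      exact he.2 (by simp)
  -- the sum
  have hBcard := card_B G u N2 huN
  have hBS : (B G u N2).card ≤ (B G u N2 \ S).card + (S.filter (fun e => u ∉ e)).card := by
    have h1 : B G u N2 ⊆ (B G u N2 \ S) ∪ (S.filter (fun e => u ∉ e)) := by
      intro e he
      rw [mem_union, mem_sdiff, mem_filter]
      by_cases heS : e ∈ S
      · right
        refine ⟨heS, ?_⟩
        simp only [B, mem_filter] at he
        exact he.2.1
      · left; exact ⟨he, heS⟩
    exact (Finset.card_le_card h1).trans (Finset.card_union_le _ _)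
  have hlow : ∑ v ∈ N1, min (imb G s(u, v)) k + (B G u N2 \ S).card ≤
      ∑ e ∈ G.edgeFinset \ S, min (imb G e) k := by
    have h1 : ∑ v ∈ N1, min (imb G s(u, v)) k = ∑ e ∈ N1.image (fun v => s(u, v)), min (imb G e) k := by
      rw [Finset.sum_image]
      intro a _ b _ hab
      exact mk_inj hab
    have h2 : (B G u N2 \ S).card ≤ ∑ e ∈ B G u N2 \ S, min (imb G e) k := by
      rw [Finset.card_eq_sum_ones]
      apply Finset.sum_le_sum
      intro e he
      rw [mem_sdiff] at he
      have he1 : e ∈ G.edgeFinset := (mem_filter.1 he.1).1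
      induction e using Sym2.ind with
      | _ x y =>
        rw [SimpleGraph.mem_edgeFinset, SimpleGraph.mem_edgeSet] at he1
        have := h x y he1
        rw [imb_mk]
        omega
    rw [h1]
    refine (Nat.add_le_add_left h2 _).trans ?_
    rw [← Finset.sum_union]
    · apply Finset.sum_le_sum_of_subset
      intro e he
      rw [mem_union] at he
      rcases he with he | he
      · rw [mem_image] at he
        obtain ⟨v, hv, rfl⟩ := he
        simp only [hN1, mem_filter, SimpleGraph.mem_neighborFinset] at hv
        rw [mem_sdiff, SimpleGraph.mem_edgeFinset, SimpleGraph.mem_edgeSet]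
        exact hv
      · rw [mem_sdiff] at he ⊢
        exact ⟨(mem_filter.1 he.1).1, he.2⟩
    · rw [Finset.disjoint_left]
      intro e he he'
      rw [mem_image] at he
      obtain ⟨v, _, rfl⟩ := he
      rw [mem_sdiff] at he'
      have := (mem_filter.1 he'.1).2.1
      exact this (by simp)
  have hsplit : N3.card * k + N2.card * D ≤
      ∑ v ∈ N1, min (imb G s(u, v)) k + ∑ v ∈ N2, G.degree v := by
    rw [← Finset.sum_sdiff hN21, add_assoc, ← Finset.sum_add_distrib]
    refine Nat.add_le_add ?_ ?_
    · rw [← smul_eq_mul]
      apply Finset.card_nsmul_le_sum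
      intro v hv
      have hv1 : v ∈ N1 ∧ v ∉ N2 := mem_sdiff.1 hv
      have : ¬ imb G s(u, v) < k := fun hlt => hv1.2 (mem_filter.2 ⟨hv1.1, hlt⟩)
      omega
    · rw [← smul_eq_mul]
      apply Finset.card_nsmul_le_sum
      intro v hv
      rw [hN2, mem_filter] at hv
      have := hv.2
      rw [imb_mk] at this ⊢
      omega
  have hch : 2 * N2.card.choose 2 = N2.card * (N2.card - 1) := by
    rw [Nat.choose_two_right, Nat.mul_div_cancel' (Nat.even_mul_pred_self _).two_dvd]
  -- arithmetic
  have ha := arith (k : ℤ) D P.card N1.card N2.card (by exact_mod_cast hP1) (by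
    have : P.card ≤ k := by omega
    exact_mod_cast this) (by exact_mod_cast hDk) (by exact_mod_cast hcard) (by positivity) (by
    exact_mod_cast Finset.card_le_card hN21)
  have hch' : (2 * N2.card.choose 2 : ℤ) = N2.card * (N2.card - 1) := by
    rcases Nat.eq_zero_or_pos N2.card with h0 | h0
    · rw [h0]; simp
    · have : ((N2.card * (N2.card - 1) : ℕ) : ℤ) = N2.card * (N2.card - 1) := by
        rw [Nat.cast_mul, Nat.cast_sub h0, Nat.cast_one]
      rw [← this, ← hch]
      push_cast
      ring
  have hD1 : 1 ≤ D := by omega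
  zify [hk0, hD1] at hsum hBcard hBS hlow hsplit hSu hN3c ⊢
  have e1 : (N3.card : ℤ) = N1.card - N2.card := by linarith
  rw [e1] at hsplit
  nlinarith

end Pool.Agent.N850.Imb
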